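import Pool.Agent.helper61.DP.SpecA

/-!
# dp:FI. Four arms: alternating points on the inner circle
-/

namespace DP

/-- An interface site next to the cluster of a black site is white and connected to the outer
circle by white sites. -/
theorem FI_nbd {c : V → Bool} {x u b p : V} {m n : ℕ}
    (h : Con (nbd (ann x m n) {w | Conn c true (ann x m n) u w}) b p) :
    c b = false ∧ Conn c false (ann x m n) b p := by
  have hsub : nbd (ann x m n) {w | Conn c true (ann x m n) u w} ⊆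
      {w | w ∈ ann x m n ∧ c w = false} := by
    rintro w ⟨hw1, hw2, z, hz, hzw⟩
    refine ⟨hw1, ?_⟩
    by_contra hcw
    have hcw' : c w = true := by
      cases h' : c w
      · exact absurd h' hcw
      · rfl
    exact hw2 (Con.step hz hzw ⟨hw1, hcw'⟩)
  have h2 : Conn c false (ann x m n) b p := Con.mono hsub h
  exact ⟨h2.1.2, h2⟩

theorem FI (hGI : GI_stmt) (hAC : AC_stmt) : FI_stmt := by
  intro c x m n hx hm hmn h4
  obtain ⟨u, hu, v, hv, ⟨u', hu', huu'⟩, ⟨v', hv', hvv'⟩, huv⟩ := h4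
  have hcu : c u = true := huu'.1.2
  have hcv : c v = true := hvv'.1.2
  have hne : u ≠ v := by
    rintro rfl
    exact huv (Con.refl hvv'.1)
  set C : Set V := {w | Conn c true (ann x m n) u w} with hC
  have hCsub : C ⊆ ann x m n := by
    intro w hw
    have hw' : Conn c true (ann x m n) u w := hw
    exact (Con.mem_right hw').1
  have h1 : ∃ p ∈ bd x n, Con C u p := ⟨u', hu', Con.cluster huu'⟩
  have h2 : ∃ p ∈ bd x n, Con (ann x m n \ C) v p := by
    refine ⟨v', hv', ?_⟩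
    have h3 := Con.cluster hvv'
    refine Con.mono ?_ h3
    intro w hw
    have hw' : Conn c true (ann x m n) v w := hw
    refine ⟨(Con.mem_right hw').1, ?_⟩
    intro hwC
    have hwC' : Conn c true (ann x m n) u w := hwC
    exact huv (Con.trans hwC' (Con.symm hw'))
  obtain ⟨⟨a, b, -, -, hb, -, -, p, hp, hbp⟩, ⟨a', b', -, -, hb', -, -, p', hp', hbp'⟩⟩ :=
    hGI x m n C u v hx hm hmn hCsub hu hv h1 h2
  obtain ⟨hcb, hbw⟩ := FI_nbd hbp
  obtain ⟨hcb', hbw'⟩ := FI_nbd hbp'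
  have hub : u ≠ b := by rintro rfl; rw [hcu] at hcb; exact Bool.noConfusion hcb
  have hvb : v ≠ b := by rintro rfl; rw [hcv] at hcb; exact Bool.noConfusion hcb
  have hub' : u ≠ b' := by rintro rfl; rw [hcu] at hcb'; exact Bool.noConfusion hcb'
  have hvb' : v ≠ b' := by rintro rfl; rw [hcv] at hcb'; exact Bool.noConfusion hcb'
  have hbb' : b ≠ b' := by
    rintro rfl
    rcases hAC.2.1 x m u v b hm hb hb' hne with h | h
    · exact hub h.symm
    · exact hvb h.symm
  refine ⟨u, b, v, b', ⟨⟨hu, hb.2.2.1, hv, hb'.2.2.1⟩, ?_, Or.inl ⟨hb, hb'⟩⟩, hcu, hcb, hcv, hcb',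
    ⟨hu, u', hu', ?_⟩, ⟨hb.2.2.1, p, hp, ?_⟩, ⟨hv, v', hv', ?_⟩, ⟨hb'.2.2.1, p', hp', ?_⟩⟩
  · simp only [List.nodup_cons, List.mem_cons, List.not_mem_nil, or_false, not_or,
      List.nodup_nil, and_true, not_false_eq_true]
    exact ⟨⟨hub, hne, hub'⟩, ⟨hvb.symm, hbb'⟩, hvb'⟩
  · rw [hcu]; exact huu'
  · rw [hcb]; exact hbw
  · rw [hcv]; exact hvv'
  · rw [hcb']; exact hbw'

end DP
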