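import Pool.Agent.helper61.DP.SpecC

/-!
# dp:RSW. All rectangles of bounded aspect ratio and both colours
-/

namespace DP

open MeasureTheory

theorem RSW_Pr_mono {F G : Set (V → Bool)} (h : F ⊆ G) : Pr F ≤ Pr G := by
  have : IsProbabilityMeasure P1 := by unfold P1; infer_instance
  exact measureReal_mono h

theorem RSW_true (hR : RHM_stmt) (hX : RSX_stmt) (c : ℝ)
    (hc : ∀ n : ℕ, 1 ≤ n → c ≤ ph true 0 (18 * n) 0 (4 * n)) (a b d e : ℤ) (hab : a ≤ b)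
    (hL : 60 ≤ e - d) (h4 : b - a ≤ 4 * (e - d)) : c ≤ ph true a b d e := by
  obtain ⟨n, hn⟩ : ∃ n : ℕ, (n : ℤ) = (e - d - 2) / 4 :=
    ⟨((e - d - 2) / 4).toNat, Int.toNat_of_nonneg (by omega)⟩
  have hn1 : 1 ≤ n := by omega
  obtain ⟨i, hi⟩ : ∃ i : ℤ, 2 * i = a ∨ 2 * i = a - 1 := ⟨a / 2, by omega⟩
  obtain ⟨j, hj⟩ : ∃ j : ℤ, 2 * j = d ∨ 2 * j = d + 1 := ⟨(d + 1) / 2, by omega⟩
  refine (hc n hn1).trans ?_
  rw [← (hX.1 true 0 (18 * n) 0 (4 * n) i j).1]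
  refine RSW_Pr_mono ?_
  intro w hw
  have hw' : hcross (col w) true (0 + 2 * i) (18 * n + 2 * i) (0 + 2 * j) (4 * n + 2 * j) := hw
  exact hR.1 (col w) true _ _ _ _ a b d e (by omega) hab (by omega) (by omega) (by omega) hw'

theorem RSW_ph (hR : RHM_stmt) (hX : RSX_stmt) (c : ℝ)
    (hc : ∀ n : ℕ, 1 ≤ n → c ≤ ph true 0 (18 * n) 0 (4 * n)) (k : Bool) (a b d e : ℤ)
    (hab : a ≤ b) (hL : 60 ≤ e - d) (h4 : b - a ≤ 4 * (e - d)) : c ≤ ph k a b d e := by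
  cases k
  · have h := (hX.2.2 true (a - 1) (b - 1) (d - 1) (e - 1)).1
    simp only [Bool.not_true, sub_add_cancel] at h
    rw [h]
    exact RSW_true hR hX c hc _ _ _ _ (by omega) (by omega) (by omega)
  · exact RSW_true hR hX c hc _ _ _ _ hab hL h4

theorem RSW (hR : RHM_stmt) (hX : RSX_stmt) (h6 : RR6_stmt) : RSW_stmt := by
  obtain ⟨c, hc0, hc⟩ := h6
  refine ⟨c, hc0, 60, by norm_num, ?_⟩
  intro k a b d e hab hde
  refine ⟨fun hL h4 => RSW_ph hR hX c hc k a b d e hab hL h4, fun hL h4 => ?_⟩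
  rw [hX.2.1 k a b d e]
  exact RSW_ph hR hX c hc k d e a b hde hL h4

end DP
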