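import Pool.Agent.helper95.DP.SpecH

/-!
# dp:HEX. The exponential distribution: tail and no atoms
-/

namespace DP

open MeasureTheory ProbabilityTheory Filter Topology

theorem HEX_Iic (t : ℝ) :
    (expMeasure 1).real (Set.Iic t) = if 0 ≤ t then 1 - Real.exp (-t) else 0 := by
  rw [← cdf_eq_real, cdf_expMeasure_eq one_pos]
  simp

theorem HEX : HEX_stmt := by
  refine ⟨?_, ?_, ?_⟩
  · intro t ht
    have h1 : (Set.Ioi t : Set ℝ) = (Set.Iic t)ᶜ := by simp
    rw [h1, probReal_compl_eq_one_sub measurableSet_Iic, HEX_Iic, if_pos ht]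
    ring
  · intro c
    have h1 : expMeasure 1 ≪ (volume : Measure ℝ) := by
      unfold expMeasure gammaMeasure
      exact withDensity_absolutelyContinuous _ _
    exact h1 (by simp)
  · have h1 := HEX_Iic 0
    simp only [le_refl, if_true, neg_zero, Real.exp_zero, sub_self] at h1
    exact (measureReal_eq_zero_iff).1 h1

end DP
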